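import Mathlib
import Pool.Agent.V1199.Tsirelson

open Set Filter Topology

namespace Pool.Agent.Results.MP_6d986f_an.SeparationTwo

open Pool.Agent.V1199.Tsirelson

/-- `(T, ι)` is a realisation of Tsirelson space: `T` is a Banach space, `ι` maps the finite
sequences linearly onto a dense subspace of `T`, and `x ↦ ‖ι x‖` satisfies the implicit equation. -/
def IsTsirelsonSpace (T : Type*) [NormedAddCommGroup T] [NormedSpace ℝ T] (ι : c00 →ₗ[ℝ] T) :
    Prop :=
  CompleteSpace T ∧ DenseRange ι ∧ IsTsirelson (fun x => ‖ι x‖)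

/-- The set of all `r` such that the closed unit ball contains an infinite `r`-separated set. -/
def separations (T : Type*) [NormedAddCommGroup T] : Set ℝ :=
  {r | 0 < r ∧ ∃ S : Set T, S ⊆ Metric.closedBall 0 1 ∧ S.Infinite ∧
    ∀ x ∈ S, ∀ y ∈ S, x ≠ y → r ≤ dist x y}

/-- `P(T) = 2` for Tsirelson space, and the supremum is attained. -/
theorem result :
    (∃ (T : Type) (_ : NormedAddCommGroup T) (_ : NormedSpace ℝ T) (ι : c00 →ₗ[ℝ] T),
      IsTsirelsonSpace T ι) ∧
    ∀ (T : Type*) [NormedAddCommGroup T] [NormedSpace ℝ T] (ι : c00 →ₗ[ℝ] T),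
      IsTsirelsonSpace T ι → sSup (separations T) = 2 ∧ 2 ∈ separations T := by
  refine ⟨?_, ?_⟩
  · let j : T0 →L[ℝ] UniformSpace.Completion T0 := UniformSpace.Completion.toComplL
    let id0 : c00 →ₗ[ℝ] T0 := { toFun := fun x => x, map_add' := fun _ _ => rfl, map_smul' := fun _ _ => rfl }
    refine ⟨UniformSpace.Completion T0, inferInstance, inferInstance, j.toLinearMap ∘ₗ id0,
      inferInstance, ?_, ?_⟩
    · exact UniformSpace.Completion.denseRange_coe (α := T0)
    · have h : (fun x : c00 => ‖(j.toLinearMap ∘ₗ id0) x‖) = tnorm := by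
        funext x
        exact (UniformSpace.Completion.norm_coe (E := T0) (x : T0)).trans (norm_T0 x)
      rw [h]
      exact isTsirelson_tnorm
  · intro T _ _ ι hι
    have hinj : ∀ i j, i ≠ j → 2 ≤ dist (ι (vec i)) (ι (vec j)) := by
      intro i j hij
      rcases lt_or_gt_of_ne hij with h | h
      · rw [dist_eq_norm]; exact two_le_norm hι.2.2 h
      · rw [dist_comm, dist_eq_norm]; exact two_le_norm hι.2.2 h
    have hmem : (2 : ℝ) ∈ separations T := by
      refine ⟨two_pos, range fun j => ι (vec j), ?_, ?_, ?_⟩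
      · rintro _ ⟨j, rfl⟩
        rw [mem_closedBall_zero_iff]
        exact norm_vec hι.2.2 j
      · refine infinite_range_of_injective fun i j hij => ?_
        by_contra hne
        have h1 := hinj i j hne
        have h2 : dist (ι (vec i)) (ι (vec j)) = 0 := by
          rw [show ι (vec i) = ι (vec j) from hij, dist_self]
        linarith
      · rintro _ ⟨i, rfl⟩ _ ⟨j, rfl⟩ hne
        exact hinj i j fun h => hne (by rw [h])
    have hub : ∀ r ∈ separations T, r ≤ 2 := by
      rintro r ⟨_, S, hS, hinf, hsep⟩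
      obtain ⟨x, hx, y, hy, hxy⟩ := hinf.nontrivial
      have h1 := hsep x hx y hy hxy
      have h2 := hS hx
      have h3 := hS hy
      rw [Metric.mem_closedBall] at h2 h3
      have h4 := dist_triangle_right x y 0
      linarith
    exact ⟨le_antisymm (csSup_le ⟨2, hmem⟩ hub) (le_csSup ⟨2, hub⟩ hmem), hmem⟩

end Pool.Agent.Results.MP_6d986f_an.SeparationTwo
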